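import Pool.Agent.helper34.DT.Spec

set_option autoImplicit false

/-!
# Module AN of project dt: rational elements of the Lie algebra near `J`
-/

namespace Pool.Agent.HC.DT

open Pool.Agent.HC

theorem AN_ratSpan_smul {W : Type} [NormedAddCommGroup W] [NormedSpace ℂ W] (Lam : AddSubgroup W)
    (q : ℚ) {w : W} (hw : w ∈ ratSpan Lam) : ((q : ℝ) • w : W) ∈ ratSpan Lam := by
  obtain ⟨n, hn, hnw⟩ := hw
  refine ⟨q.den * n, mul_ne_zero q.den_nz hn, ?_⟩
  have h1 : (q.den * n) • ((q : ℝ) • w : W) = q.num • (n • w) := by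
    rw [← Nat.cast_smul_eq_nsmul ℝ (q.den * n), ← Nat.cast_smul_eq_nsmul ℝ n,
      ← Int.cast_smul_eq_zsmul ℝ q.num, smul_smul, smul_smul]
    congr 1
    have h2 : ((q.den : ℝ)) * (q : ℝ) = (q.num : ℝ) := by
      have h3 : (q.den : ℚ) * q = q.num := Rat.den_mul_eq_num q
      exact_mod_cast h3
    push_cast
    rw [mul_right_comm, h2]
  rw [h1]
  exact Lam.zsmul_mem hnw _

theorem AN (hAX : AX_stmt) (hAJ : AJ_stmt) (hAC : AC_stmt) : AN_stmt := by
  intro W _ _ _ Lam ψ hL hP δ hδ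
  obtain ⟨m, c, Y, hc, hY, hJ⟩ := hAX W Lam hL (JJ W)
  have hmem : (∑ i, c i • Y i) ∈ lieAlg Lam ψ := hJ ▸ hAJ W Lam ψ hP
  have hYmem := hAC W Lam ψ hL hP m c Y hc hY hmem
  have hN : 0 < ∑ i, ‖Y i‖ + 1 := by positivity
  have hex : ∀ i, ∃ q : ℚ, |(q : ℝ) - c i| < δ / (∑ i, ‖Y i‖ + 1) := by
    intro i
    have h0 : c i - δ / (∑ i, ‖Y i‖ + 1) < c i := by
      have := div_pos hδ hN
      linarith
    obtain ⟨q, h1, h2⟩ := exists_rat_btwn h0
    refine ⟨q, ?_⟩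
    rw [abs_lt]
    constructor
    · linarith
    · have := div_pos hδ hN; linarith
  choose q hq using hex
  refine ⟨∑ i, (q i : ℝ) • Y i, ?_, ?_, ?_⟩
  · exact Submodule.sum_mem _ fun i _ => Submodule.smul_mem _ _ (hYmem i)
  · intro v hv
    have h1 : (∑ i, (q i : ℝ) • Y i : W →L[ℝ] W) v = ∑ i, (q i : ℝ) • Y i v := by
      rw [_root_.sum_apply]
      rfl
    have h2 : (∑ i, (q i : ℝ) • Y i : W →L[ℝ] W) v ∈ ratSpan Lam := by
      rw [h1]
      exact AddSubgroup.sum_mem _ fun i _ => AN_ratSpan_smul Lam (q i) (hY i v hv)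
    exact h2
  · have h1 : (∑ i, (q i : ℝ) • Y i) - JJ W = ∑ i, ((q i : ℝ) - c i) • Y i := by
      rw [hJ, ← Finset.sum_sub_distrib]
      refine Finset.sum_congr rfl fun i _ => ?_
      rw [sub_smul]
    rw [h1]
    calc ‖∑ i, ((q i : ℝ) - c i) • Y i‖ ≤ ∑ i, ‖((q i : ℝ) - c i) • Y i‖ := norm_sum_le _ _
      _ ≤ ∑ i, δ / (∑ i, ‖Y i‖ + 1) * ‖Y i‖ := by
          refine Finset.sum_le_sum fun i _ => ?_
          rw [norm_smul, Real.norm_eq_abs]
          exact mul_le_mul_of_nonneg_right (hq i).le (norm_nonneg _)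
      _ = δ / (∑ i, ‖Y i‖ + 1) * ∑ i, ‖Y i‖ := by rw [Finset.mul_sum]
      _ < δ := by
          rw [div_mul_eq_mul_div, div_lt_iff₀ hN]
          nlinarith

end Pool.Agent.HC.DT
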